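import Mathlib
import Pool.Agent.MP_6b3410_lc.H75.Spec2

set_option autoImplicit false

namespace Pool.Agent.MP_6b3410_lc.H88

open Pool.Agent.MP_6b3410_lc.H75 Finset

lemma chi_add (a b : ZMod 2) : chi (a + b) = chi a * chi b := by
  have h : ∀ x : ZMod 2, x = 0 ∨ x = 1 := by decide
  have h2 : (1 + 1 : ZMod 2) = 0 := by decide
  rcases h a with rfl | rfl <;> rcases h b with rfl | rfl <;> simp [chi, h2]

lemma chi_sq (a : ZMod 2) : chi a * chi a = 1 := by
  unfold chi; split_ifs <;> norm_num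

lemma chi_le (a : ZMod 2) : chi a ≤ 1 := by
  unfold chi; split_ifs <;> norm_num

lemma chi_abs (a : ZMod 2) : |chi a| = 1 := by
  unfold chi; split_ifs <;> norm_num

variable {n : ℕ}

lemma mem_cube {F : Finset (Fin n)} {a : Fin n → ZMod 2} : a ∈ cube F ↔ ∀ i, i ∉ F → a i = 0 := by
  simp [cube]

lemma add_mem_cube {F : Finset (Fin n)} {a b : Fin n → ZMod 2} (ha : a ∈ cube F)
    (hb : b ∈ cube F) : a + b ∈ cube F :=
  mem_cube.2 fun i hi => by rw [Pi.add_apply, mem_cube.1 ha i hi, mem_cube.1 hb i hi, add_zero]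

lemma cube_mono {F G : Finset (Fin n)} (h : F ⊆ G) : cube F ⊆ cube G :=
  fun _ ha => mem_cube.2 fun i hi => mem_cube.1 ha i fun e => hi (h e)

lemma add_self_vec (a : Fin n → ZMod 2) : a + a = 0 :=
  funext fun i => CharTwo.add_self_eq_zero (a i)

lemma card_cube (F : Finset (Fin n)) : (cube F).card = 2 ^ F.card := by
  classical
  have : cube F = Fintype.piFinset fun i => if i ∈ F then univ else {0} := by
    ext a
    rw [mem_cube, Fintype.mem_piFinset]
    refine forall_congr' fun i => ?_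
    by_cases h : i ∈ F <;> simp [h]
  rw [this, Fintype.card_piFinset]
  simp [apply_ite Finset.card, prod_ite_mem]

lemma sum_shift {F : Finset (Fin n)} {c : Fin n → ZMod 2} (hc : c ∈ cube F)
    (g : (Fin n → ZMod 2) → ℝ) : ∑ a ∈ cube F, g (a + c) = ∑ a ∈ cube F, g a :=
  sum_nbij' (· + c) (· + c) (fun _ ha => add_mem_cube ha hc) (fun _ ha => add_mem_cube ha hc)
    (fun a _ => by rw [add_assoc, add_self_vec, add_zero])
    (fun a _ => by rw [add_assoc, add_self_vec, add_zero]) fun _ _ => rfl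

/-- the bound for a function whose second derivative is a biadditive form -/
lemma quad_bound {F₁ F₂ : Finset (Fin n)} (B : (Fin n → ZMod 2) → (Fin n → ZMod 2) → ZMod 2)
    (h1 : ∀ a a' b, B (a + a') b = B a b + B a' b) (h2 : ∀ a b b', B a (b + b') = B a b + B a b')
    (α β : (Fin n → ZMod 2) → ZMod 2) :
    (∑ a ∈ cube F₁, ∑ b ∈ cube F₂, chi (α a + (β b + B a b))) ^ 2
      ≤ 2 ^ F₁.card * (2 ^ F₂.card * ∑ a ∈ cube F₁, ∑ b ∈ cube F₂, chi (B a b)) := by
  have hN : ∀ b, 0 ≤ ∑ a ∈ cube F₁, chi (B a b) := by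
    intro b
    have : (2 : ℝ) ^ F₁.card * ∑ a ∈ cube F₁, chi (B a b) = (∑ a ∈ cube F₁, chi (B a b)) ^ 2 := by
      rw [sq, sum_mul_sum, ← sum_congr rfl fun a' ha' => sum_congr rfl fun a _ => chi_add _ _,
        sum_congr rfl fun a' ha' => (sum_congr rfl fun a _ => by rw [← h1, add_comm]).trans
          (sum_shift ha' fun a => chi (B a b)), sum_const, card_cube]
      simp
    exact nonneg_of_mul_nonneg_right (this ▸ sq_nonneg _) (by positivity)
  calc (∑ a ∈ cube F₁, ∑ b ∈ cube F₂, chi (α a + (β b + B a b))) ^ 2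
      = (∑ a ∈ cube F₁, chi (α a) * ∑ b ∈ cube F₂, chi (β b + B a b)) ^ 2 := by
        simp only [mul_sum, ← chi_add]
    _ ≤ (∑ a ∈ cube F₁, chi (α a) ^ 2) * ∑ a ∈ cube F₁, (∑ b ∈ cube F₂, chi (β b + B a b)) ^ 2 :=
        sum_mul_sq_le_sq_mul_sq _ _ _
    _ = 2 ^ F₁.card * ∑ b ∈ cube F₂, ∑ b' ∈ cube F₂,
          chi (β b + β b') * ∑ a ∈ cube F₁, chi (B a (b' + b)) := by
        congr 1
        · simp [sq, chi_sq, card_cube]
        · simp only [sq, sum_mul_sum]
          simp only [mul_sum, ← chi_add]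
          rw [sum_comm]
          refine sum_congr rfl fun b _ => ?_
          rw [sum_comm]
          refine sum_congr rfl fun b' _ => sum_congr rfl fun a _ => ?_
          rw [h2]
          congr 1
          ring
    _ ≤ 2 ^ F₁.card * ∑ b ∈ cube F₂, ∑ b' ∈ cube F₂, ∑ a ∈ cube F₁, chi (B a (b' + b)) := by
        gcongr with b _ b' _
        exact mul_le_of_le_one_left (hN _) (chi_le _)
    _ = _ := by
        rw [sum_congr rfl fun b hb => sum_shift hb fun b' => ∑ a ∈ cube F₁, chi (B a b'),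
          sum_const, card_cube, sum_comm]
        simp

lemma num_bound {h m : ℕ} (hm : m ≤ 2 * h + 1) {D : ℝ} (hD : D ^ 4 ≤ 128 ^ h) :
    D ≤ 4 ^ h * (2 * (16 / 17) ^ m) := by
  refine le_of_pow_le_pow_left₀ (n := 4) (by norm_num) (by positivity) (hD.trans ?_)
  have h1 : ((16 / 17 : ℝ) ^ (2 * h + 1)) ≤ (16 / 17) ^ m :=
    pow_le_pow_of_le_one (by norm_num) (by norm_num) hm
  calc (128 : ℝ) ^ h ≤ (256 * (16 / 17) ^ 8) ^ h * (2 * (16 / 17)) ^ 4 :=
        (pow_le_pow_left₀ (by norm_num) (by norm_num) h).trans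
          (le_mul_of_one_le_right (by positivity) (by norm_num))
    _ = (4 ^ h * (2 * (16 / 17) ^ (2 * h + 1))) ^ 4 := by
        rw [mul_pow (256 : ℝ), show (256 : ℝ) = 4 ^ 4 by norm_num, ← pow_mul, ← pow_mul, mul_pow,
          mul_pow, mul_pow, ← pow_mul, ← pow_mul]
        ring
    _ ≤ _ := by gcongr

variable {M T : ℕ} (Enc : Encoder n M) (ξ : Mons M T)

lemma tri_add_left (a a' b v : Fin n → ZMod 2) :
    tri Enc ξ (a + a') b v = tri Enc ξ a b v + tri Enc ξ a' b v := by
  simp only [tri, ← sum_add_distrib, per, map_add, Pi.add_apply]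
  exact sum_congr rfl fun t _ => by ring

lemma tri_add_right (a b b' v : Fin n → ZMod 2) :
    tri Enc ξ a (b + b') v = tri Enc ξ a b v + tri Enc ξ a b' v := by
  simp only [tri, ← sum_add_distrib, per, map_add, Pi.add_apply]
  exact sum_congr rfl fun t _ => by ring

lemma cub_third (u a b v : Fin n → ZMod 2) :
    cub Enc ξ (u + a + b + v) - cub Enc ξ (u + a + b) = (cub Enc ξ (u + a + v) - cub Enc ξ (u + a))
      + ((cub Enc ξ (u + b + v) - cub Enc ξ (u + b) - (cub Enc ξ (u + v) - cub Enc ξ u))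
        + tri Enc ξ a b v) := by
  simp only [cub, tri, ← sum_add_distrib, ← sum_sub_distrib, per, map_add, Pi.add_apply]
  exact sum_congr rfl fun t _ => by ring

/-- the off-diagonal terms -/
lemma off_bound {h₀ : ℕ} (hG : Good Enc ξ h₀) {F : Finset (Fin n)} (hF : h₀ ≤ F.card / 2)
    {x x' : Fin n → ZMod 2} (hx : ∀ i ∈ F, x i = 0) (hx' : ∀ i ∈ F, x' i = 0) (hne : x ≠ x') :
    ∑ a ∈ cube F, chi (cub Enc ξ (a + x) + cub Enc ξ (a + x')) ≤ 2 * (32 / 17) ^ F.card := by
  classical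
  set h := F.card / 2 with hh
  obtain ⟨F₁, s1, c1⟩ := exists_subset_card_eq (s := F) (n := h) (by omega)
  obtain ⟨F₂, s2, c2⟩ := exists_subset_card_eq (s := F \ F₁) (n := h)
    (by rw [card_sdiff_of_subset s1]; omega)
  have s3 : F₂ ⊆ F := s2.trans sdiff_subset
  have hv : ∀ i ∈ F, (x - x') i = 0 := fun i hi => by rw [Pi.sub_apply, hx i hi, hx' i hi, sub_zero]
  have hZ := hG F₁ F₂ (x - x') (disjoint_sdiff.mono_right s2) (c1.trans c2.symm) (c1 ▸ hF)
    (sub_ne_zero.2 hne) (fun i hi => hv i (s1 hi)) fun i hi => hv i (s3 hi)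
  set g : (Fin n → ZMod 2) → ZMod 2 := fun a => cub Enc ξ (a + x) + cub Enc ξ (a + x') with hg
  have g1 : ∀ a, g a = cub Enc ξ (a + x' + (x - x')) - cub Enc ξ (a + x') := fun a => by
    rw [CharTwo.sub_eq_add, show a + x' + (x - x') = a + x by abel]
  have hD : ∀ u, ∑ a ∈ cube F₁, ∑ b ∈ cube F₂, chi (g (u + a + b))
      ≤ 4 ^ h * (2 * (16 / 17) ^ F.card) := by
    intro u
    refine num_bound (by omega) ?_
    have e : ∀ a b, g (u + a + b) = g (u + a) + (g (u + b) - g u + tri Enc ξ a b (x - x')) := by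
      intro a b
      rw [g1, g1, g1, g1, show u + a + b + x' = u + x' + a + b by abel,
        show u + a + x' = u + x' + a by abel, show u + b + x' = u + x' + b by abel, cub_third]
    have q := quad_bound (F₁ := F₁) (F₂ := F₂) (fun a b => tri Enc ξ a b (x - x'))
      (fun a a' b => tri_add_left Enc ξ a a' b _) (fun a b b' => tri_add_right Enc ξ a b b' _)
      (fun a => g (u + a)) fun b => g (u + b) - g u
    simp only [← e] at q
    rw [c1] at hZ
    rw [c1, c2] at q
    calc _ = ((∑ a ∈ cube F₁, ∑ b ∈ cube F₂, chi (g (u + a + b))) ^ 2) ^ 2 := by ring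
      _ ≤ (2 ^ h * (2 ^ h * ∑ a ∈ cube F₁, ∑ b ∈ cube F₂, chi (tri Enc ξ a b (x - x')))) ^ 2 :=
          pow_le_pow_left₀ (sq_nonneg _) q 2
      _ = (2 ^ h) ^ 4 * (∑ a ∈ cube F₁, ∑ b ∈ cube F₂, chi (tri Enc ξ a b (x - x'))) ^ 2 := by ring
      _ ≤ (2 ^ h) ^ 4 * 8 ^ h := by gcongr
      _ = 128 ^ h := by rw [← pow_mul, mul_comm h, pow_mul, ← mul_pow]; norm_num
  have h4 : (4 : ℝ) ^ h * ∑ a ∈ cube F, chi (g a)
      = ∑ u ∈ cube F, ∑ a ∈ cube F₁, ∑ b ∈ cube F₂, chi (g (u + a + b)) := by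
    rw [sum_comm, sum_congr rfl fun a ha => sum_comm.trans (sum_congr rfl fun b hb =>
      (sum_congr rfl fun u _ => by rw [add_assoc]).trans
        (sum_shift (add_mem_cube (cube_mono s1 ha) (cube_mono s3 hb)) fun u => chi (g u))),
      sum_const, sum_const, card_cube, card_cube, c1, c2, smul_smul, ← mul_pow]
    simp
  refine le_of_mul_le_mul_left (a := (4 : ℝ) ^ h) ?_ (by positivity)
  rw [h4]
  refine (sum_le_sum fun u _ => hD u).trans (le_of_eq ?_)
  rw [sum_const, card_cube, nsmul_eq_mul, show (32 / 17 : ℝ) = 2 * (16 / 17) by norm_num, mul_pow]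
  push_cast
  ring

lemma tz_inj {u v : Fin n → Bool} {i : Fin n} (h : tz u i = tz v i) : u i = v i := by
  unfold tz at h
  cases hu : u i <;> cases hv : v i <;> simp_all

theorem hardA : HardAStmt := by
  classical
  rintro n M T Enc ξ h₀ K β hG k3 kh ⟨F, G, w, R₁, R₂, dj, r1, r2, w1, w2, hX⟩
  set p : (Fin n → Bool) → Fin n → ZMod 2 := fun u i => if i ∈ F then tz u i else 0 with hp
  set q : (Fin n → Bool) → Fin n → ZMod 2 := fun v i => if i ∈ F then 0 else tz v i with hq
  have p1 : Set.InjOn p R₁ := fun u hu u' hu' e => funext fun i => by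
    by_cases hi : i ∈ F
    · exact tz_inj (by simpa [hp, hi] using congrFun e i)
    · rw [w1 u hu i hi, w1 u' hu' i hi]
  have q1 : Set.InjOn q R₂ := fun u hu u' hu' e => funext fun i => by
    by_cases hi : i ∈ F
    · rw [w2 u hu i (disjoint_left.1 dj hi), w2 u' hu' i (disjoint_left.1 dj hi)]
    · exact tz_inj (by simpa [hq, hi] using congrFun e i)
  have p2 : R₁.image p ⊆ cube F := image_subset_iff.2 fun u _ =>
    mem_cube.2 fun i hi => by simp [hp, hi]
  have q2 : ∀ v, ∀ i ∈ F, q v i = 0 := fun v i hi => by simp [hq, hi]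
  have pq : ∀ u ∈ R₁, ∀ v ∈ R₂, cub Enc ξ (p u + q v) = β := fun u hu v hv => by
    rw [← show cub Enc ξ (tz fun i => if i ∈ F then u i else v i) = β from hX u hu v hv]
    congr 1
    funext i
    by_cases hi : i ∈ F <;> simp [hp, hq, tz, hi]
  have e0 : (0 : ℝ) < (32 / 17) ^ F.card := by positivity
  by_cases hF : h₀ ≤ F.card / 2
  · have r3 : (2 : ℝ) ^ F.card ≤ R₂.card := by exact_mod_cast r2
    have r4 : (0 : ℝ) < R₂.card := lt_of_lt_of_le (by positivity) r3
    have key : (R₁.card : ℝ) * R₂.card ^ 2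
        ≤ R₂.card * (2 ^ F.card + R₂.card * (2 * (32 / 17) ^ F.card)) :=
      calc (R₁.card : ℝ) * R₂.card ^ 2
          = ∑ u ∈ R₁, (∑ v ∈ R₂, chi (cub Enc ξ (p u + q v))) ^ 2 := by
            rw [sum_congr rfl fun u hu => by
              rw [sum_congr rfl fun v hv => by rw [pq u hu v hv], sum_const, nsmul_eq_mul, mul_pow,
                sq (chi β), chi_sq, mul_one], sum_const, nsmul_eq_mul]
        _ = ∑ a ∈ R₁.image p, (∑ v ∈ R₂, chi (cub Enc ξ (a + q v))) ^ 2 := by
            rw [sum_image p1]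
        _ ≤ ∑ a ∈ cube F, (∑ v ∈ R₂, chi (cub Enc ξ (a + q v))) ^ 2 :=
            sum_le_sum_of_subset_of_nonneg p2 fun _ _ _ => sq_nonneg _
        _ = ∑ v ∈ R₂, ∑ v' ∈ R₂, ∑ a ∈ cube F, chi (cub Enc ξ (a + q v) + cub Enc ξ (a + q v')) := by
            simp only [sq, sum_mul_sum, ← chi_add]
            rw [sum_comm]
            exact sum_congr rfl fun v _ => sum_comm
        _ ≤ ∑ v ∈ R₂, ∑ v' ∈ R₂, ((if v = v' then 2 ^ F.card else 0) + 2 * (32 / 17) ^ F.card) := by
            refine sum_le_sum fun v hv => sum_le_sum fun v' hv' => ?_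
            split_ifs with e
            · refine (sum_le_sum fun a _ => chi_le _).trans ?_
              rw [sum_const, card_cube]
              simp only [nsmul_eq_mul, mul_one, Nat.cast_pow, Nat.cast_ofNat]
              linarith
            · rw [zero_add]
              exact off_bound Enc ξ hG hF (q2 v) (q2 v') fun e' => e (q1 hv hv' e')
        _ = _ := by
            rw [sum_congr rfl fun v hv => by
              rw [sum_add_distrib, sum_ite_eq, if_pos hv, sum_const, nsmul_eq_mul],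
              sum_const, nsmul_eq_mul]
    have e1 : (1 : ℝ) ≤ (32 / 17) ^ F.card := one_le_pow₀ (by norm_num)
    have e2 : (R₁.card : ℝ) * R₂.card ^ 2 ≤ 3 * (32 / 17) ^ F.card * R₂.card ^ 2 := by
      refine key.trans ?_
      nlinarith [mul_le_mul_of_nonneg_left r3 r4.le,
        mul_le_mul_of_nonneg_left e1 (sq_nonneg (R₂.card : ℝ))]
    have e3 := le_of_mul_le_mul_right e2 (by positivity)
    nlinarith
  · have c1 : (R₁.card : ℝ) ≤ 2 ^ F.card := by
      have := card_le_card p2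
      rw [card_image_of_injOn p1, card_cube] at this
      exact_mod_cast this
    have c2 : (17 / 16 : ℝ) ^ F.card ≤ (17 / 16) ^ (2 * h₀ + 1) :=
      pow_le_pow_right₀ (by norm_num) (by omega)
    have c3 : (2 : ℝ) ^ F.card = (17 / 16) ^ F.card * (32 / 17) ^ F.card := by
      rw [← mul_pow]; norm_num
    nlinarith

end Pool.Agent.MP_6b3410_lc.H88
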